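import Mathlib

/-!
# Plane graphs given by rotation systems

A plane graph without isolated vertices is encoded by its rotation system together with the partition of its
boundary walks into faces.
-/

set_option autoImplicit false

namespace Pool.Agent.LightTri

open Equiv Equiv.Perm

/-- The face permutation of a rotation system: walk along the dart `d`, then take the dart which
follows the reversed dart in the rotation at the head of `d`. Its cycles are the facial boundary
walks. -/
def facePerm {V : Type} {G : SimpleGraph V} (rot : Perm G.Dart) : Perm G.Dart :=
  (Function.Involutive.toPerm SimpleGraph.Dart.symm SimpleGraph.Dart.symm_involutive).trans rot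

/-- A plane graph on the vertex set `V` (connected or not, without isolated vertices), in
combinatorial form. -/
structure PlaneGraph (V : Type) where
  /-- the underlying simple graph -/
  graph : SimpleGraph V
  /-- the rotation: the cyclic order of the darts (oriented edges) leaving each vertex -/
  rot : Perm graph.Dart
  /-- the rotation keeps the initial vertex -/
  rot_fst : ∀ d : graph.Dart, (rot d).fst = d.fst
  /-- the darts leaving a vertex form one cycle of the rotation -/
  rot_cyclic : ∀ d e : graph.Dart, d.fst = e.fst → rot.SameCycle d e
  /-- two darts are equivalent when the same face lies along them -/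
  face : Setoid graph.Dart
  /-- the darts of one facial boundary walk lie along the same face -/
  face_closed : ∀ d : graph.Dart, face.r d (facePerm rot d)
  /-- the components are linked through common faces -/
  linked : ∀ d e : graph.Dart,
    Relation.EqvGen (fun a b : graph.Dart => face.r a b ∨ graph.Reachable a.fst b.fst) d e
  /-- every component is embedded in the sphere: `V - E + B = 2C`, where `B` is the number of
  boundary walks and `C` the number of components -/
  genus_zero : (Nat.card V : ℤ) - Nat.card graph.edgeSet +
    Nat.card (Quotient (SameCycle.setoid (facePerm rot))) = 2 * Nat.card graph.ConnectedComponent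
  /-- Euler's formula `V - E + F = 1 + C`, where `F` is the number of faces -/
  euler : (Nat.card V : ℤ) - Nat.card graph.edgeSet + Nat.card (Quotient face) =
    1 + Nat.card graph.ConnectedComponent

variable {V : Type}

/-- The degree of a vertex. -/
noncomputable def PlaneGraph.deg (M : PlaneGraph V) (v : V) : ℕ :=
  Nat.card (M.graph.neighborSet v)

/-- The face `F` is bounded by a 3-cycle whose three vertices have degrees `i`, `j`, `k`. -/
def PlaneGraph.IsTriangularFace (M : PlaneGraph V) (F : Quotient M.face) (i j k : ℕ) : Prop :=
  ∃ d : M.graph.Dart, F = Quotient.mk M.face d ∧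
    facePerm M.rot (facePerm M.rot (facePerm M.rot d)) = d ∧
    (∀ e, M.face.r d e → e = d ∨ e = facePerm M.rot d ∨ e = facePerm M.rot (facePerm M.rot d)) ∧
    ({M.deg d.fst, M.deg (facePerm M.rot d).fst,
      M.deg (facePerm M.rot (facePerm M.rot d)).fst} : Multiset ℕ) = {i, j, k}

/-- `f M i j k` is the number of triangular faces of `M` whose vertices have degrees `i`, `j`,
`k`. -/
noncomputable def PlaneGraph.f (M : PlaneGraph V) (i j k : ℕ) : ℕ :=
  Nat.card {F : Quotient M.face // M.IsTriangularFace F i j k}

/-- The minimum degree of the plane graph `M` is five. -/
def PlaneGraph.MinDegFive (M : PlaneGraph V) : Prop :=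
  (∀ v, 5 ≤ M.deg v) ∧ ∃ v, M.deg v = 5

/-- The real number `c` is admissible when all plane graphs with minimum degree five satisfy the
inequality with the coefficient `c` of `f₅₅₇`. -/
def Admissible (c : ℝ) : Prop :=
  ∀ (V : Type) [Finite V] (M : PlaneGraph V), M.MinDegFive →
    18 * (M.f 5 5 5 : ℝ) + 9 * (M.f 5 5 6 : ℝ) + c * (M.f 5 5 7 : ℝ) + 4 * (M.f 5 6 6 : ℝ) ≥ 144

end Pool.Agent.LightTri
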