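import Mathlib

set_option autoImplicit false

namespace Pool.Agent.LightTri

/-- The 114 vertices of the extremal triangulation: two caps (`a = false`, `a = true`) with centre
`c`, glued along the 16-cycle formed by the vertices `s` and `t`. -/
inductive Vx
  | c (a : Bool)
  | u (a : Bool) (i : Fin 8)
  | x (a : Bool) (i : Fin 8)
  | p (a : Bool) (i : Fin 8)
  | q (a : Bool) (i : Fin 8)
  | y (a : Bool) (i : Fin 8)
  | z (a : Bool) (i : Fin 8)
  | s (i : Fin 8)
  | t (i : Fin 8)
  deriving DecidableEq, Fintype

open Vx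

/-- reverse a list in the second cap -/
def flip (a : Bool) (l : List Vx) : List Vx := if a then l.reverse else l

/-- the neighbours of a vertex in cyclic order -/
def nbr : Vx → List Vx
  | c a => flip a [u a 0, u a 1, u a 2, u a 3, u a 4, u a 5, u a 6, u a 7]
  | u a i => flip a [x a (i - 1), x a i, u a (i + 1), c a, u a (i - 1)]
  | x a i => flip a [p a (i - 1), q a i, p a i, x a (i + 1), u a (i + 1), u a i, x a (i - 1)]
  | p a i => flip a [q a i, y a i, q a (i + 1), x a (i + 1), x a i]
  | q a i => flip a [y a (i - 1), z a i, y a i, p a i, x a i, p a (i - 1)]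
  | y a i => flip a [t i, s i, z a (i + 1), q a (i + 1), p a i, q a i, z a i]
  | z a i => flip a [s (i - 1), t i, y a i, q a i, y a (i - 1)]
  | t i => [z true i, y true i, s i, y false i, z false i, s (i - 1)]
  | s i => [y true i, z true (i + 1), t (i + 1), z false (i + 1), y false i, t i]

/-- the entry following `w` in the cyclic list `l` -/
def nxt (l : List Vx) (w : Vx) : Vx := l.getD ((l.idxOf w + 1) % l.length) w

/-- the entry preceding `w` in the cyclic list `l` -/
def prv (l : List Vx) (w : Vx) : Vx := nxt l.reverse w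

theorem all_symm : ∀ v : Vx, (nbr v).all (fun w => decide (v ∈ nbr w)) = true := by
  decide +kernel

theorem nbr_symm (v w : Vx) (h : w ∈ nbr v) : v ∈ nbr w := by
  have := List.all_eq_true.1 (all_symm v) w h
  simpa using this

theorem nbr_irrefl : ∀ v : Vx, v ∉ nbr v := by
  decide +kernel

theorem nbr_nodup : ∀ v : Vx, (nbr v).Nodup := by
  decide +kernel

theorem all_mem : ∀ v : Vx, (nbr v).all (fun w => decide (nxt (nbr v) w ∈ nbr v ∧
    prv (nbr v) w ∈ nbr v ∧ prv (nbr v) (nxt (nbr v) w) = w ∧
    nxt (nbr v) (prv (nbr v) w) = w)) = true := by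
  decide +kernel

theorem nxt_mem (v w : Vx) (h : w ∈ nbr v) : nxt (nbr v) w ∈ nbr v := by
  have := List.all_eq_true.1 (all_mem v) w h
  exact (of_decide_eq_true this).1

theorem prv_mem (v w : Vx) (h : w ∈ nbr v) : prv (nbr v) w ∈ nbr v := by
  have := List.all_eq_true.1 (all_mem v) w h
  exact (of_decide_eq_true this).2.1

theorem prv_nxt (v w : Vx) (h : w ∈ nbr v) : prv (nbr v) (nxt (nbr v) w) = w := by
  have := List.all_eq_true.1 (all_mem v) w h
  exact (of_decide_eq_true this).2.2.1

theorem nxt_prv (v w : Vx) (h : w ∈ nbr v) : nxt (nbr v) (prv (nbr v) w) = w := by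
  have := List.all_eq_true.1 (all_mem v) w h
  exact (of_decide_eq_true this).2.2.2

/-- all faces are triangles -/
theorem all_tri : ∀ v : Vx, (nbr v).all (fun w => decide (
    nxt (nbr (nxt (nbr w) v)) w = v ∧ nxt (nbr v) (nxt (nbr w) v) = w)) = true := by
  decide +kernel

theorem tri_all (v w : Vx) (h : w ∈ nbr v) :
    nxt (nbr (nxt (nbr w) v)) w = v ∧ nxt (nbr v) (nxt (nbr w) v) = w := by
  have := List.all_eq_true.1 (all_tri v) w h
  exact of_decide_eq_true this

theorem all_cyc : ∀ v : Vx, (nbr v).all (fun w => (List.range 8).any (fun k =>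
    decide ((nxt (nbr v))^[k] w = (nbr v).headD v))) = true := by
  decide +kernel

theorem cyc_all (v w : Vx) (h : w ∈ nbr v) : ∃ k : ℕ, (nxt (nbr v))^[k] w = (nbr v).headD v := by
  have := List.all_eq_true.1 (all_cyc v) w h
  obtain ⟨k, _, hk⟩ := List.any_eq_true.1 this
  exact ⟨k, of_decide_eq_true hk⟩

theorem card_Vx : Fintype.card Vx = 114 := by
  decide +kernel

theorem sum_len : ∑ v : Vx, (nbr v).length = 672 := by
  decide +kernel

/-- a rank function decreasing along some edge -/
def rk : Vx → ℕ
  | c a => if a then 13 else 0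
  | u a _ => if a then 12 else 1
  | x a _ => if a then 11 else 2
  | p a _ => if a then 10 else 3
  | q a _ => if a then 10 else 3
  | y a _ => if a then 8 else 4
  | z a _ => if a then 8 else 4
  | t _ => 6
  | s _ => 6

theorem all_rk : ∀ v : Vx, v = c false ∨ ((nbr v).any (fun w => decide (rk w < rk v))) = true := by
  decide +kernel

theorem rk_dec (v : Vx) (h : v ≠ c false) : ∃ w ∈ nbr v, rk w < rk v := by
  rcases all_rk v with h' | h'
  · exact absurd h' h
  · obtain ⟨w, hw, hlt⟩ := List.any_eq_true.1 h'
    exact ⟨w, hw, of_decide_eq_true hlt⟩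

/-- number of face corners with given degrees -/
def cnt (i j k : ℕ) : ℕ := ∑ v : Vx, ((nbr v).filter (fun w =>
  decide (({(nbr v).length, (nbr w).length, (nbr (nxt (nbr w) v)).length} : Multiset ℕ) =
    {i, j, k}))).length

theorem cnt_555 : cnt 5 5 5 = 0 := by decide +kernel

theorem cnt_556 : cnt 5 5 6 = 0 := by decide +kernel

theorem cnt_557 : cnt 5 5 7 = 48 := by decide +kernel

theorem cnt_566 : cnt 5 6 6 = 48 := by decide +kernel

theorem len_ge : ∀ v : Vx, 5 ≤ (nbr v).length := by decide +kernel

end Pool.Agent.LightTri
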