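import Pool.Agent.LightTri.Faces
import Pool.Agent.LightTri.Table

set_option autoImplicit false
set_option linter.unusedSectionVars false

namespace Pool.Agent.LightTri

open Equiv Equiv.Perm Finset

theorem three_mul_orbits {D : Type} [Fintype D] (φ : Perm D) (h3 : ∀ d, φ (φ (φ d)) = d)
    (h1 : ∀ d, φ d ≠ d) : 3 * Nat.card (Quotient (SameCycle.setoid φ)) = Nat.card D := by
  classical
  haveI : Fintype (Quotient (SameCycle.setoid φ)) := Quotient.fintype _
  have key : ∀ ω : Quotient (SameCycle.setoid φ),
      (univ.filter (fun d : D => (Quotient.mk _ d : Quotient (SameCycle.setoid φ)) = ω)).card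
        = 3 := by
    intro ω
    obtain ⟨d, rfl⟩ := Quotient.exists_rep ω
    have h2 : φ (φ d) ≠ d := by
      intro h
      have := h3 d
      rw [h] at this
      exact h1 d this
    have h1' : φ (φ d) ≠ φ d := h1 _
    have s0 : SameCycle φ d d := SameCycle.refl _ _
    have s1 : SameCycle φ d (φ d) := sameCycle_apply_right.2 s0
    have s2 : SameCycle φ d (φ (φ d)) := sameCycle_apply_right.2 s1
    have hset : univ.filter (fun e : D =>
        (Quotient.mk _ e : Quotient (SameCycle.setoid φ)) = Quotient.mk _ d) =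
        ({d, φ d, φ (φ d)} : Finset D) := by
      ext e
      simp only [mem_filter, mem_univ, true_and, mem_insert, mem_singleton]
      constructor
      · intro he
        have hs : SameCycle φ e d := Quotient.exact he
        obtain ⟨n, hn⟩ := hs.symm.exists_nat_pow_eq
        clear he hs
        induction n generalizing e with
        | zero => left; rw [← hn]; rfl
        | succ n ih =>
          rw [pow_succ', Perm.mul_apply] at hn
          rcases ih ((φ ^ n) d) rfl with h | h | h
          · rw [h] at hn; right; left; exact hn.symm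
          · rw [h] at hn; right; right; exact hn.symm
          · rw [h] at hn; left; rw [← hn]; exact h3 d
      · rintro (rfl | rfl | rfl)
        · rfl
        · exact Quotient.sound s1.symm
        · exact Quotient.sound s2.symm
    rw [hset, card_insert_of_notMem (by simp [h1 d |>.symm, h2.symm]),
      card_insert_of_notMem (by simp [h1'.symm]), card_singleton]
  rw [Nat.card_eq_fintype_card, Nat.card_eq_fintype_card]
  have h4 := card_eq_sum_card_fiberwise (s := (univ : Finset D))
    (t := (univ : Finset (Quotient (SameCycle.setoid φ))))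
    (f := fun d => (Quotient.mk _ d : Quotient (SameCycle.setoid φ))) (fun d _ => mem_univ _)
  rw [card_univ] at h4
  rw [h4, sum_congr rfl (fun ω _ => key ω), sum_const, card_univ, smul_eq_mul, mul_comm]

/-- the graph -/
def Gx : SimpleGraph Vx where
  Adj v w := w ∈ nbr v
  symm := ⟨fun v w h => nbr_symm v w h⟩
  loopless := ⟨fun v h => nbr_irrefl v h⟩

/-- its rotation -/
def rotx : Perm Gx.Dart where
  toFun d := ⟨(d.fst, nxt (nbr d.fst) d.snd), nxt_mem d.fst d.snd d.adj⟩
  invFun d := ⟨(d.fst, prv (nbr d.fst) d.snd), prv_mem d.fst d.snd d.adj⟩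
  left_inv d := by
    apply SimpleGraph.Dart.ext
    exact Prod.ext rfl (prv_nxt d.fst d.snd d.adj)
  right_inv d := by
    apply SimpleGraph.Dart.ext
    exact Prod.ext rfl (nxt_prv d.fst d.snd d.adj)

theorem facex_apply (d : Gx.Dart) : (facePerm rotx d).fst = d.snd ∧
    (facePerm rotx d).snd = nxt (nbr d.snd) d.fst := ⟨rfl, rfl⟩

theorem facex_three (d : Gx.Dart) : facePerm rotx (facePerm rotx (facePerm rotx d)) = d := by
  have h := tri_all d.fst d.snd d.adj
  apply SimpleGraph.Dart.ext
  apply Prod.ext
  · exact h.1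
  · show nxt (nbr (nxt (nbr (nxt (nbr d.snd) d.fst)) d.snd)) (nxt (nbr d.snd) d.fst) = d.snd
    rw [h.1, h.2]

theorem rotx_iter (d : Gx.Dart) (k : ℕ) : ((rotx ^ k) d).fst = d.fst ∧
    ((rotx ^ k) d).snd = (nxt (nbr d.fst))^[k] d.snd := by
  induction k with
  | zero => exact ⟨rfl, rfl⟩
  | succ k ih =>
    rw [pow_succ', Perm.mul_apply, Function.iterate_succ_apply']
    refine ⟨ih.1, ?_⟩
    show nxt (nbr ((rotx ^ k) d).fst) ((rotx ^ k) d).snd = _
    rw [ih.1, ih.2]

theorem Gx_connected : Gx.Connected := by
  have h : ∀ n : ℕ, ∀ v : Vx, rk v ≤ n → Gx.Reachable v (Vx.c false) := by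
    intro n
    induction n with
    | zero =>
      intro v hv
      by_cases h : v = Vx.c false
      · rw [h]
      · obtain ⟨w, _, hlt⟩ := rk_dec v h
        omega
    | succ n ih =>
      intro v hv
      by_cases h : v = Vx.c false
      · rw [h]
      · obtain ⟨w, hw, hlt⟩ := rk_dec v h
        have hadj : Gx.Adj v w := hw
        exact hadj.reachable.trans (ih w (by omega))
  have : Nonempty Vx := ⟨Vx.c false⟩
  exact ⟨fun v w => (h _ v le_rfl).trans (h _ w le_rfl).symm⟩

theorem card_nbrSet (v : Vx) : Nat.card (Gx.neighborSet v) = (nbr v).length := by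
  have : Gx.neighborSet v = ((nbr v).toFinset : Set Vx) := by
    ext w
    rw [SimpleGraph.mem_neighborSet]
    simp [Gx]
  rw [this, Nat.card_coe_set_eq, Set.ncard_coe_finset, List.toFinset_card_of_nodup (nbr_nodup v)]

instance : DecidableRel Gx.Adj := fun v w => inferInstanceAs (Decidable (w ∈ nbr v))

theorem deg_Gx (v : Vx) : Gx.degree v = (nbr v).length := by
  rw [← card_nbrSet, Nat.card_eq_fintype_card, SimpleGraph.card_neighborSet_eq_degree]

theorem card_darts : Nat.card Gx.Dart = 672 := by
  rw [@Nat.card_eq_fintype_card _ SimpleGraph.Dart.fintype, SimpleGraph.dart_card_eq_sum_degrees]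
  rw [← sum_len]
  exact sum_congr rfl (fun v _ => deg_Gx v)

theorem card_edges : Nat.card Gx.edgeSet = 336 := by
  have h := Gx.dart_card_eq_twice_card_edges
  have h' : Nat.card Gx.Dart = 2 * Gx.edgeFinset.card :=
    (@Nat.card_eq_fintype_card _ SimpleGraph.Dart.fintype).trans h
  rw [card_darts] at h'
  rw [Nat.card_eq_fintype_card, ← SimpleGraph.edgeFinset_card]
  omega

theorem card_orbs : Nat.card (Quotient (SameCycle.setoid (facePerm rotx))) = 224 := by
  have h := three_mul_orbits (facePerm rotx) facex_three (face_ne (fun d => rfl))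
  rw [card_darts] at h
  omega

theorem card_comp : Nat.card Gx.ConnectedComponent = 1 := by
  have := Gx_connected.preconnected.subsingleton_connectedComponent
  have : Nonempty Gx.ConnectedComponent := ⟨Gx.connectedComponentMk (Vx.c false)⟩
  exact Nat.card_eq_one_iff_unique.2 ⟨inferInstance, inferInstance⟩

/-- The extremal plane triangulation with 114 vertices. -/
def Mx : PlaneGraph Vx where
  graph := Gx
  rot := rotx
  rot_fst := fun _ => rfl
  rot_cyclic := by
    intro d e hde
    have key : ∀ d : Gx.Dart, ∃ k : ℕ, ((rotx ^ k) d).snd = (nbr d.fst).headD d.fst := by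
      intro d
      obtain ⟨k, hk⟩ := cyc_all d.fst d.snd d.adj
      exact ⟨k, by rw [(rotx_iter d k).2, hk]⟩
    obtain ⟨k, hk⟩ := key d
    obtain ⟨l, hl⟩ := key e
    have h1 : (rotx ^ k) d = (rotx ^ l) e := by
      apply SimpleGraph.Dart.ext
      apply Prod.ext
      · exact ((rotx_iter d k).1.trans hde).trans (rotx_iter e l).1.symm
      · exact (hk.trans (by rw [hde])).trans hl.symm
    have h2 : SameCycle rotx d ((rotx ^ k) d) := sameCycle_pow_right.2 (SameCycle.refl _ _)
    have h3 : SameCycle rotx e ((rotx ^ l) e) := sameCycle_pow_right.2 (SameCycle.refl _ _)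
    rw [h1] at h2
    exact h2.trans h3.symm
  face := SameCycle.setoid (facePerm rotx)
  face_closed := fun d => sameCycle_apply_right.2 (SameCycle.refl _ _)
  linked := fun d e => Relation.EqvGen.rel _ _ (Or.inr (Gx_connected.preconnected _ _))
  genus_zero := by
    rw [card_orbs, card_edges, card_comp, Nat.card_eq_fintype_card, card_Vx]; norm_num
  euler := by
    rw [card_orbs, card_edges, card_comp, Nat.card_eq_fintype_card, card_Vx]; norm_num

theorem Mx_deg (v : Vx) : Mx.deg v = (nbr v).length := card_nbrSet v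

theorem Mx_min : Mx.MinDegFive := by
  refine ⟨fun v => ?_, Vx.u false 0, ?_⟩
  · rw [Mx_deg]; exact len_ge v
  · rw [Mx_deg]; rfl

theorem Mx_tri (d : Mx.graph.Dart) : Tri Mx d := facex_three d

/-- degree multiset of the face along a dart -/
def dm (v w : Vx) : Multiset ℕ :=
  {(nbr v).length, (nbr w).length, (nbr (nxt (nbr w) v)).length}

theorem Mx_face (d : Mx.graph.Dart) : (facePerm Mx.rot d).fst = d.snd ∧
    (facePerm Mx.rot d).snd = nxt (nbr d.snd) d.fst := ⟨rfl, rfl⟩

theorem Mx_dm (e : Mx.graph.Dart) : ({Mx.deg e.fst, Mx.deg (facePerm Mx.rot e).fst,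
      Mx.deg (facePerm Mx.rot (facePerm Mx.rot e)).fst} : Multiset ℕ) = dm e.fst e.snd := by
  rw [Mx_deg, Mx_deg, Mx_deg]
  rfl

theorem Mx_dm_rot (e : Mx.graph.Dart) :
    dm (facePerm Mx.rot e).fst (facePerm Mx.rot e).snd = dm e.fst e.snd := by
  have h := tri_all e.fst e.snd e.adj
  show ({(nbr e.snd).length, (nbr (nxt (nbr e.snd) e.fst)).length,
    (nbr (nxt (nbr (nxt (nbr e.snd) e.fst)) e.snd)).length} : Multiset ℕ) = _
  rw [h.1]
  unfold dm
  simp only [Multiset.insert_eq_cons]
  rw [← Multiset.singleton_add, ← Multiset.singleton_add,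
    ← Multiset.singleton_add (nbr e.fst).length, ← Multiset.singleton_add (nbr e.snd).length]
  abel

theorem face_iff (d : Mx.graph.Dart) (i j k : ℕ) :
    Mx.IsTriangularFace (Quotient.mk _ d) i j k ↔ dm d.fst d.snd = {i, j, k} := by
  classical
  constructor
  · rintro ⟨e, he, -, -, hm⟩
    rw [Mx_dm] at hm
    have hs : SameCycle (facePerm Mx.rot) d e := Quotient.exact he
    rcases tri_orbit Mx (Mx_tri d) hs with h | h | h
    · rw [h] at hm; exact hm
    · rw [h] at hm
      exact (Mx_dm_rot d).symm.trans hm
    · rw [h] at hm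
      exact ((Mx_dm_rot (facePerm Mx.rot d)).trans (Mx_dm_rot d)).symm.trans hm
  · intro h
    exact ⟨d, rfl, Mx_tri d, fun e he => tri_orbit Mx (Mx_tri d) he, (Mx_dm d).trans h⟩

theorem Mx_count (i j k : ℕ) : 3 * Mx.f i j k = cnt i j k := by
  classical
  rw [← sum_ind Mx]
  -- sum over the darts
  have h1 : ∑ d : Mx.graph.Dart, (if dm d.fst d.snd = {i, j, k} then 1 else 0) =
      3 * ∑ F, ind Mx F i j k := by
    rw [← Finset.sum_fiberwise (univ : Finset Mx.graph.Dart)
      (fun d : Mx.graph.Dart => (Quotient.mk Mx.face d : Quotient Mx.face)), mul_sum]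
    apply sum_congr rfl
    intro F _
    obtain ⟨d, rfl⟩ := Quotient.exists_rep F
    have hconst : ∀ e ∈ univ.filter (fun e : Mx.graph.Dart =>
        (Quotient.mk Mx.face e : Quotient Mx.face) = Quotient.mk _ d),
        (if dm e.fst e.snd = {i, j, k} then 1 else 0) = ind Mx (Quotient.mk _ d) i j k := by
      intro e he
      rw [mem_filter] at he
      rw [← he.2]
      unfold ind
      by_cases h : dm e.fst e.snd = {i, j, k}
      · rw [if_pos h, if_pos ((face_iff e i j k).2 h)]
      · rw [if_neg h, if_neg (fun h' => h ((face_iff e i j k).1 h'))]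
    rw [sum_congr rfl hconst, sum_const, smul_eq_mul]
    congr 1
    -- the fibre has three elements
    have g1 : facePerm Mx.rot d ≠ d := face_ne (fun _ => rfl) d
    have g2 : facePerm Mx.rot (facePerm Mx.rot d) ≠ d := by
      intro h
      have h3 : facePerm Mx.rot (facePerm Mx.rot (facePerm Mx.rot d)) = d := Mx_tri d
      rw [h] at h3
      exact g1 h3
    have g1' : facePerm Mx.rot (facePerm Mx.rot d) ≠ facePerm Mx.rot d := face_ne (fun _ => rfl) _
    have s0 : SameCycle (facePerm Mx.rot) d d := SameCycle.refl _ _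
    have s1 : SameCycle (facePerm Mx.rot) d (facePerm Mx.rot d) := sameCycle_apply_right.2 s0
    have s2 : SameCycle (facePerm Mx.rot) d (facePerm Mx.rot (facePerm Mx.rot d)) :=
      sameCycle_apply_right.2 s1
    have hset : univ.filter (fun e : Mx.graph.Dart =>
        (Quotient.mk Mx.face e : Quotient Mx.face) = Quotient.mk _ d) =
        ({d, facePerm Mx.rot d, facePerm Mx.rot (facePerm Mx.rot d)} :
          Finset Mx.graph.Dart) := by
      ext e
      simp only [mem_filter, mem_univ, true_and, mem_insert, mem_singleton]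
      constructor
      · intro he
        have hs : SameCycle (facePerm Mx.rot) e d := Quotient.exact he
        exact tri_orbit Mx (Mx_tri d) hs.symm
      · rintro (rfl | rfl | rfl)
        · rfl
        · exact Quotient.sound s1.symm
        · exact Quotient.sound s2.symm
    rw [hset, card_insert_of_notMem (by simp [g1.symm, g2.symm]),
      card_insert_of_notMem (by simp [g1'.symm]), card_singleton]
  rw [← h1]
  have h2 := sum_all Mx (fun d => if dm d.fst d.snd = {i, j, k} then 1 else 0)
  refine Eq.trans h2.symm ?_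
  unfold cnt
  apply sum_congr rfl
  intro v _
  have h3 : ∑ d ∈ out Mx v, (if dm d.fst d.snd = {i, j, k} then 1 else 0) =
      ∑ w ∈ (nbr v).toFinset, (if dm v w = {i, j, k} then 1 else 0) := by
    refine sum_bij (fun d _ => d.snd) ?_ ?_ ?_ ?_
    · intro d hd
      rw [mem_out] at hd
      have : d.snd ∈ nbr d.fst := d.adj
      rw [hd] at this
      exact List.mem_toFinset.2 this
    · intro d hd e he hde
      rw [mem_out] at hd he
      apply SimpleGraph.Dart.ext
      exact Prod.ext (hd.trans he.symm) hde
    · intro w hw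
      rw [List.mem_toFinset] at hw
      exact ⟨⟨(v, w), hw⟩, (mem_out Mx).2 rfl, rfl⟩
    · intro d hd
      rw [mem_out] at hd
      rw [hd]
  rw [h3, ← card_filter]
  have h4 : (nbr v).toFinset.filter (fun w => dm v w = {i, j, k}) =
      ((nbr v).filter (fun w => decide (dm v w = {i, j, k}))).toFinset := by
    ext w
    simp
  rw [h4, List.toFinset_card_of_nodup ((nbr_nodup v).filter _)]
  rfl

theorem lower {c : ℝ} (hc : Admissible c) : 5 ≤ c := by
  have h := hc Vx Mx Mx_min
  have h1 := Mx_count 5 5 5
  have h2 := Mx_count 5 5 6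
  have h3 := Mx_count 5 5 7
  have h4 := Mx_count 5 6 6
  rw [cnt_555] at h1
  rw [cnt_556] at h2
  rw [cnt_557] at h3
  rw [cnt_566] at h4
  have e1 : Mx.f 5 5 5 = 0 := by omega
  have e2 : Mx.f 5 5 6 = 0 := by omega
  have e3 : Mx.f 5 5 7 = 16 := by omega
  have e4 : Mx.f 5 6 6 = 16 := by omega
  rw [e1, e2, e3, e4] at h
  push_cast at h
  linarith

theorem admissible_five : Admissible 5 := by
  intro V _ M hM
  have := Fintype.ofFinite V
  have h := upper M hM
  have h' : (288 : ℝ) ≤ 36 * M.f 5 5 5 + 18 * M.f 5 5 6 + 10 * M.f 5 5 7 + 8 * M.f 5 6 6 := by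
    exact_mod_cast h
  linarith

end Pool.Agent.LightTri
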