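import Pool.Agent.LightTri.Upper

set_option autoImplicit false
set_option linter.unusedSectionVars false

namespace Pool.Agent.LightTri

open Equiv Equiv.Perm Finset

variable {V : Type} [Fintype V] (M : PlaneGraph V)

theorem face_two_ne (h5 : ∀ v, 5 ≤ M.deg v) (d : M.graph.Dart) :
    facePerm M.rot (facePerm M.rot d) ≠ d := by
  intro he
  have h1 : (facePerm M.rot d).fst = d.snd := face_fst M.rot_fst d
  have h2 : (facePerm M.rot d).snd = d.fst := by
    have := face_fst M.rot_fst (facePerm M.rot d)
    rw [he] at this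
    exact this.symm
  have h3 : facePerm M.rot d = d.symm := by
    apply SimpleGraph.Dart.ext
    exact Prod.ext h1 h2
  have h4 : M.rot d.symm = d.symm := h3
  have h6 := (isCycleOn_out M d.snd).pow_apply_eq (n := 1)
    (show d.symm ∈ out M d.snd from (mem_out M).2 rfl)
  rw [pow_one, card_out] at h6
  have h7 := Nat.le_of_dvd one_pos (h6.1 h4)
  have := h5 d.snd
  omega

theorem tri_orbit {d e : M.graph.Dart} (h : Tri M d) (hs : SameCycle (facePerm M.rot) d e) :
    e = d ∨ e = facePerm M.rot d ∨ e = facePerm M.rot (facePerm M.rot d) := by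
  classical
  obtain ⟨n, hn⟩ := hs.exists_nat_pow_eq
  induction n generalizing e with
  | zero => left; rw [← hn]; rfl
  | succ n ih =>
    rw [pow_succ', Perm.mul_apply] at hn
    have h1 := ih (e := (facePerm M.rot ^ n) d) ⟨n, by rw [zpow_natCast]⟩ rfl
    rcases h1 with h1 | h1 | h1
    · rw [h1] at hn; right; left; exact hn.symm
    · rw [h1] at hn; right; right; exact hn.symm
    · rw [h1] at hn; left; rw [← hn]; exact h

/-- number of boundary walks -/
abbrev Orb (M : PlaneGraph V) := Quotient (SameCycle.setoid (facePerm M.rot))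

noncomputable instance : Fintype (Orb M) := by
  classical
  exact Quotient.fintype _

noncomputable instance : Fintype (Quotient M.face) := by
  classical
  exact Quotient.fintype _

theorem orbit_weight (h5 : ∀ v, 5 ≤ M.deg v) [DecidableEq (Orb M)] (ω : Orb M) :
    144 ≤ ∑ d ∈ univ.filter (fun d : M.graph.Dart => (Quotient.mk _ d : Orb M) = ω),
      (48 - nt M d) := by
  classical
  obtain ⟨d, rfl⟩ := Quotient.exists_rep ω
  set φ := facePerm M.rot with hφ
  have hmem : ∀ e, SameCycle φ d e →
      e ∈ univ.filter (fun e : M.graph.Dart => (Quotient.mk _ e : Orb M) = Quotient.mk _ d) := by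
    intro e he
    rw [mem_filter]
    exact ⟨mem_univ _, Quotient.sound he.symm⟩
  have h1 : φ d ≠ d := face_ne M.rot_fst d
  have h2 : φ (φ d) ≠ d := face_two_ne M h5 d
  have h1' : φ (φ d) ≠ φ d := face_ne M.rot_fst (φ d)
  have hnt : ∀ e, nt M e ≤ 12 := by intro e; unfold nt; split_ifs <;> omega
  have s0 : SameCycle φ d d := SameCycle.refl _ _
  have s1 : SameCycle φ d (φ d) := sameCycle_apply_right.2 s0
  have s2 : SameCycle φ d (φ (φ d)) := sameCycle_apply_right.2 s1
  have s3 : SameCycle φ d (φ (φ (φ d))) := sameCycle_apply_right.2 s2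
  by_cases h : Tri M d
  · have t1 := tri_face M h
    have t2 := tri_face M t1
    have hsub : ({d, φ d, φ (φ d)} : Finset M.graph.Dart) ⊆
        univ.filter (fun e : M.graph.Dart => (Quotient.mk _ e : Orb M) = Quotient.mk _ d) := by
      intro e he
      simp only [mem_insert, mem_singleton] at he
      rcases he with rfl | rfl | rfl
      · exact hmem _ s0
      · exact hmem _ s1
      · exact hmem _ s2
    refine le_trans ?_ (sum_le_sum_of_subset hsub)
    rw [sum_insert (by simp [h1.symm, h2.symm]), sum_insert (by simp [h1'.symm]), sum_singleton]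
    have e0 : nt M d = 0 := by simp [nt, h]
    have e1 : nt M (φ d) = 0 := by simp [nt, hφ, t1]
    have e2 : nt M (φ (φ d)) = 0 := by simp [nt, hφ, t2]
    rw [e0, e1, e2]
    norm_num
  · have h3 : φ (φ (φ d)) ≠ d := h
    have h2' : φ (φ (φ d)) ≠ φ d := fun h => h2 (φ.injective h)
    have h1'' : φ (φ (φ d)) ≠ φ (φ d) := fun h => h1' (φ.injective h)
    have hsub : ({d, φ d, φ (φ d), φ (φ (φ d))} : Finset M.graph.Dart) ⊆
        univ.filter (fun e : M.graph.Dart => (Quotient.mk _ e : Orb M) = Quotient.mk _ d) := by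
      intro e he
      simp only [mem_insert, mem_singleton] at he
      rcases he with rfl | rfl | rfl | rfl
      · exact hmem _ s0
      · exact hmem _ s1
      · exact hmem _ s2
      · exact hmem _ s3
    refine le_trans ?_ (sum_le_sum_of_subset hsub)
    rw [sum_insert (by simp [h1.symm, h2.symm, h3.symm]),
      sum_insert (by simp [h1'.symm, h2'.symm]), sum_insert (by simp [h1''.symm]), sum_singleton]
    have e0 := hnt d
    have e1 := hnt (φ d)
    have e2 := hnt (φ (φ d))
    have e3 := hnt (φ (φ (φ d)))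
    omega

theorem orbits_bound (h5 : ∀ v, 5 ≤ M.deg v) :
    144 * (Nat.card (Orb M) : ℤ) + ∑ d, (nt M d : ℤ) ≤ 48 * Fintype.card M.graph.Dart := by
  classical
  have hnt : ∀ e, nt M e ≤ 12 := by intro e; unfold nt; split_ifs <;> omega
  have h1 : ∑ ω : Orb M, 144 ≤ ∑ ω : Orb M,
      ∑ d ∈ univ.filter (fun d : M.graph.Dart => (Quotient.mk _ d : Orb M) = ω), (48 - nt M d) :=
    sum_le_sum (fun ω _ => orbit_weight M h5 ω)
  rw [Finset.sum_fiberwise univ (fun d : M.graph.Dart => (Quotient.mk _ d : Orb M))
    (fun d => 48 - nt M d), sum_const, smul_eq_mul, card_univ] at h1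
  have h2 : ∑ d, (48 - nt M d) + ∑ d, nt M d = 48 * Fintype.card M.graph.Dart := by
    rw [← sum_add_distrib]
    have : ∀ d ∈ (univ : Finset M.graph.Dart), 48 - nt M d + nt M d = 48 := by
      intro d _; have := hnt d; omega
    rw [sum_congr rfl this, sum_const, smul_eq_mul, card_univ, mul_comm]
  rw [Nat.card_eq_fintype_card]
  have h3 : (∑ d, (nt M d : ℤ)) = ((∑ d, nt M d : ℕ) : ℤ) := by push_cast; rfl
  rw [h3]
  omega

theorem card_dart : (Fintype.card M.graph.Dart : ℤ) = 2 * Nat.card M.graph.edgeSet := by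
  classical
  have h := M.graph.dart_card_eq_twice_card_edges
  have h' : Nat.card M.graph.Dart = 2 * M.graph.edgeFinset.card :=
    (@Nat.card_eq_fintype_card _ SimpleGraph.Dart.fintype).trans h
  have h2 : Fintype.card M.graph.Dart = 2 * M.graph.edgeFinset.card := by
    rw [← h', Nat.card_eq_fintype_card]
  rw [h2, Nat.card_eq_fintype_card, SimpleGraph.edgeFinset_card]
  push_cast
  rfl

theorem sum_deg : ∑ v : V, (M.deg v : ℤ) = Fintype.card M.graph.Dart := by
  have := sum_all M (fun _ => (1 : ℤ))
  simp only [sum_const, card_univ, nsmul_eq_mul, mul_one] at this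
  rw [← this]
  apply sum_congr rfl
  intro v _
  rw [card_out]

/-- The main inequality for the shares. -/
theorem main_shares (h5 : ∀ v, 5 ≤ M.deg v) :
    288 * (Nat.card M.graph.ConnectedComponent : ℤ) ≤ ∑ d, (sh M d : ℤ) := by
  have h1 : ∑ v : V, (24 * (6 - (M.deg v : ℤ)) + ∑ d ∈ out M v, (hh M d : ℤ)) ≤
      ∑ v : V, ∑ d ∈ out M v, ((nt M d : ℤ) + sh M d + sd M d) :=
    sum_le_sum (fun v _ => vertex_balance M (h5 v))
  rw [sum_add_distrib, sum_all, sum_all, sum_add_distrib, sum_add_distrib, ← mul_sum,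
    sum_sub_distrib, sum_deg, sum_const, card_univ] at h1
  have h2 : ∑ d, (sd M d : ℤ) = ∑ d, (hh M d : ℤ) := by exact_mod_cast sd_eq_hh M
  rw [h2] at h1
  have h3 := orbits_bound M h5
  have h4 := card_dart M
  have h6 := M.genus_zero
  rw [Nat.card_eq_fintype_card (α := V)] at h6
  have h7 : ((Fintype.card V) • (6 : ℤ)) = 6 * (Fintype.card V : ℤ) := by
    rw [nsmul_eq_mul, mul_comm]
  rw [h7] at h1
  linarith

/-- the sum of the shares over a boundary triangle as function of the types -/
def tri3 (a b c : Fin 4) : ℕ := (if a = 0 then share2 b c else 0) +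
  (if b = 0 then share2 c a else 0) + (if c = 0 then share2 a b else 0)

theorem tri3_le (a b c : Fin 4) : tri3 a b c ≤ 36 := by
  revert a b c; decide

open scoped Classical in
/-- indicator of a face type -/
noncomputable def ind (F : Quotient M.face) (i j k : ℕ) : ℕ :=
  if M.IsTriangularFace F i j k then 1 else 0

theorem sum_ind (i j k : ℕ) : ∑ F, ind M F i j k = M.f i j k := by
  classical
  unfold ind PlaneGraph.f
  rw [Nat.card_eq_fintype_card, Fintype.card_subtype, card_filter]

theorem orbit_share_tri [DecidableEq (Orb M)] (h5 : ∀ v, 5 ≤ M.deg v) {d : M.graph.Dart}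
    (h : Tri M d) :
    ∑ e ∈ univ.filter (fun e : M.graph.Dart => (Quotient.mk _ e : Orb M) = Quotient.mk _ d),
      sh M e = tri3 (ty M d.fst) (ty M (facePerm M.rot d).fst)
        (ty M (facePerm M.rot (facePerm M.rot d)).fst) := by
  classical
  set φ := facePerm M.rot with hφ
  have h1 : φ d ≠ d := face_ne M.rot_fst d
  have h2 : φ (φ d) ≠ d := face_two_ne M h5 d
  have h1' : φ (φ d) ≠ φ d := face_ne M.rot_fst (φ d)
  have t1 : Tri M (φ d) := tri_face M h
  have t2 : Tri M (φ (φ d)) := tri_face M t1
  have e3 : φ (φ (φ d)) = d := h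
  have s0 : SameCycle φ d d := SameCycle.refl _ _
  have s1 : SameCycle φ d (φ d) := sameCycle_apply_right.2 s0
  have s2 : SameCycle φ d (φ (φ d)) := sameCycle_apply_right.2 s1
  have hset : univ.filter (fun e : M.graph.Dart => (Quotient.mk _ e : Orb M) = Quotient.mk _ d) =
      ({d, φ d, φ (φ d)} : Finset M.graph.Dart) := by
    ext e
    simp only [mem_filter, mem_univ, true_and, mem_insert, mem_singleton]
    constructor
    · intro he
      have : SameCycle φ e d := Quotient.exact he
      exact tri_orbit M h this.symm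
    · rintro (rfl | rfl | rfl)
      · rfl
      · exact Quotient.sound s1.symm
      · exact Quotient.sound s2.symm
  rw [hset, sum_insert (by simp [h1.symm, h2.symm]), sum_insert (by simp [h1'.symm]),
    sum_singleton]
  unfold sh tri3
  simp only [h, t1, t2, true_and, ← hφ, e3]
  ring

theorem tri_of_sameCycle {d e : M.graph.Dart} (h : Tri M e)
    (hs : SameCycle (facePerm M.rot) e d) : Tri M d := by
  rcases tri_orbit M h hs with h1 | h1 | h1
  · rw [h1]; exact h
  · rw [h1]; exact tri_face M h
  · rw [h1]; exact tri_face M (tri_face M h)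

theorem orbit_share_nontri [DecidableEq (Orb M)] {d : M.graph.Dart} (h : ¬ Tri M d) :
    ∑ e ∈ univ.filter (fun e : M.graph.Dart => (Quotient.mk _ e : Orb M) = Quotient.mk _ d),
      sh M e = 0 := by
  apply sum_eq_zero
  intro e he
  rw [mem_filter] at he
  have hs : SameCycle (facePerm M.rot) e d := Quotient.exact he.2
  have : ¬ Tri M e := fun h' => h (tri_of_sameCycle M h' hs)
  simp [sh, this]

def tyN (n : ℕ) : Fin 4 := if n ≤ 5 then 0 else if n = 6 then 1 else if n = 7 then 2 else 3

theorem tri3_three (b c : Fin 4) : tri3 3 b c = 0 ∧ tri3 b 3 c = 0 ∧ tri3 b c 3 = 0 := by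
  revert b c; decide

theorem numeric (a b c : ℕ) (ha : 5 ≤ a) (hb : 5 ≤ b) (hc : 5 ≤ c) :
    tri3 (tyN a) (tyN b) (tyN c) ≤
      36 * (if ({a, b, c} : Multiset ℕ) = {5, 5, 5} then 1 else 0) +
      18 * (if ({a, b, c} : Multiset ℕ) = {5, 5, 6} then 1 else 0) +
      10 * (if ({a, b, c} : Multiset ℕ) = {5, 5, 7} then 1 else 0) +
      8 * (if ({a, b, c} : Multiset ℕ) = {5, 6, 6} then 1 else 0) := by
  have h3 : ∀ n, 8 ≤ n → tyN n = 3 := by
    intro n hn
    unfold tyN
    rw [if_neg (by omega), if_neg (by omega), if_neg (by omega)]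
  rcases Nat.lt_or_ge a 8 with ha' | ha'
  · rcases Nat.lt_or_ge b 8 with hb' | hb'
    · rcases Nat.lt_or_ge c 8 with hc' | hc'
      · interval_cases a <;> interval_cases b <;> interval_cases c <;> decide
      · rw [h3 c hc', (tri3_three _ _).2.2]; exact Nat.zero_le _
    · rw [h3 b hb', (tri3_three _ _).2.1]; exact Nat.zero_le _
  · rw [h3 a ha', (tri3_three _ _).1]; exact Nat.zero_le _

/-- the map from boundary walks to faces -/
noncomputable def toFace : Orb M → Quotient M.face :=
  Quotient.lift (fun d => Quotient.mk M.face d) (by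
    intro d e hde
    apply Quotient.sound
    classical
    obtain ⟨n, hn⟩ := SameCycle.exists_nat_pow_eq (show SameCycle (facePerm M.rot) d e from hde)
    rw [← hn]
    clear hn hde
    induction n with
    | zero => exact M.face.refl d
    | succ n ih =>
      rw [pow_succ', Perm.mul_apply]
      exact M.face.trans ih (M.face_closed _))

theorem face_share [DecidableEq (Orb M)] [DecidableEq (Quotient M.face)]
    (h5 : ∀ v, 5 ≤ M.deg v) (F : Quotient M.face) :
    ∑ ω ∈ univ.filter (fun ω : Orb M => toFace M ω = F),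
      (∑ e ∈ univ.filter (fun e : M.graph.Dart => (Quotient.mk _ e : Orb M) = ω), sh M e) + 72 ≤
    36 * ind M F 5 5 5 + 18 * ind M F 5 5 6 + 10 * ind M F 5 5 7 + 8 * ind M F 5 6 6 +
      72 * (univ.filter (fun ω : Orb M => toFace M ω = F)).card := by
  classical
  set s := univ.filter (fun ω : Orb M => toFace M ω = F) with hs
  set S : Orb M → ℕ := fun ω =>
    ∑ e ∈ univ.filter (fun e : M.graph.Dart => (Quotient.mk _ e : Orb M) = ω), sh M e with hS
  show (∑ ω ∈ s, S ω) + 72 ≤ _
  have hS36 : ∀ ω, S ω ≤ 36 := by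
    intro ω
    obtain ⟨d, rfl⟩ := Quotient.exists_rep ω
    simp only [hS]
    by_cases h : Tri M d
    · rw [orbit_share_tri M h5 h]; exact tri3_le _ _ _
    · rw [orbit_share_nontri M h]; norm_num
  obtain ⟨d, rfl⟩ := Quotient.exists_rep F
  have hds : (Quotient.mk _ d : Orb M) ∈ s := by rw [hs, mem_filter]; exact ⟨mem_univ _, rfl⟩
  have hpos : 0 < s.card := card_pos.2 ⟨_, hds⟩
  rcases Nat.lt_or_ge 1 s.card with h1 | h1
  · have h2 : ∑ ω ∈ s, S ω ≤ 36 * s.card := by
      calc ∑ ω ∈ s, S ω ≤ ∑ ω ∈ s, 36 := sum_le_sum (fun ω _ => hS36 ω)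
        _ = 36 * s.card := by rw [sum_const, smul_eq_mul, mul_comm]
    omega
  · have h1' : s.card = 1 := by omega
    obtain ⟨ω, hω⟩ := card_eq_one.1 h1'
    have hω' : ω = Quotient.mk _ d := by
      rw [hω, mem_singleton] at hds; exact hds.symm
    rw [h1', hω, sum_singleton, hω']
    show S (Quotient.mk _ d) + 72 ≤ _
    by_cases h : Tri M d
    · have hval : S (Quotient.mk _ d) = tri3 (ty M d.fst) (ty M (facePerm M.rot d).fst)
        (ty M (facePerm M.rot (facePerm M.rot d)).fst) := orbit_share_tri M h5 h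
      rw [hval]
      have hnum := numeric (M.deg d.fst) (M.deg (facePerm M.rot d).fst)
        (M.deg (facePerm M.rot (facePerm M.rot d)).fst) (h5 _) (h5 _) (h5 _)
      have hface : ∀ i j k : ℕ,
          (if ({M.deg d.fst, M.deg (facePerm M.rot d).fst,
            M.deg (facePerm M.rot (facePerm M.rot d)).fst} : Multiset ℕ) = {i, j, k}
            then 1 else 0) ≤ ind M (Quotient.mk _ d) i j k := by
        intro i j k
        by_cases hm : ({M.deg d.fst, M.deg (facePerm M.rot d).fst,
            M.deg (facePerm M.rot (facePerm M.rot d)).fst} : Multiset ℕ) = {i, j, k}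
        · rw [if_pos hm]
          unfold ind
          rw [if_pos]
          refine ⟨d, rfl, h, ?_, hm⟩
          intro e he
          apply tri_orbit M h
          have he' : (Quotient.mk _ e : Orb M) ∈ s := by
            rw [hs, mem_filter]
            exact ⟨mem_univ _, (Quotient.sound (M.face.symm he) : _)⟩
          rw [hω, mem_singleton, hω'] at he'
          have : SameCycle (facePerm M.rot) e d := Quotient.exact he'
          exact this.symm
        · rw [if_neg hm]; exact Nat.zero_le _
      have f1 := hface 5 5 5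
      have f2 := hface 5 5 6
      have f3 := hface 5 5 7
      have f4 := hface 5 6 6
      have e1 : ∀ v, ty M v = tyN (M.deg v) := fun v => rfl
      rw [e1, e1, e1]
      omega
    · have hval : S (Quotient.mk _ d) = 0 := orbit_share_nontri M h
      rw [hval]
      omega

theorem upper (hM : M.MinDegFive) :
    288 ≤ 36 * M.f 5 5 5 + 18 * M.f 5 5 6 + 10 * M.f 5 5 7 + 8 * M.f 5 6 6 := by
  classical
  obtain ⟨h5, v, hv⟩ := hM
  have h1 := main_shares M h5
  have h2 : ∑ d, sh M d = ∑ F : Quotient M.face,
      ∑ ω ∈ univ.filter (fun ω : Orb M => toFace M ω = F),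
      (∑ e ∈ univ.filter (fun e : M.graph.Dart => (Quotient.mk _ e : Orb M) = ω), sh M e) := by
    rw [Finset.sum_fiberwise univ (fun ω : Orb M => toFace M ω)
      (fun ω => ∑ e ∈ univ.filter (fun e : M.graph.Dart => (Quotient.mk _ e : Orb M) = ω), sh M e),
      Finset.sum_fiberwise univ (fun d : M.graph.Dart => (Quotient.mk _ d : Orb M)) (fun d => sh M d)]
  have h3 := sum_le_sum (fun (F : Quotient M.face) (_ : F ∈ univ) => face_share M h5 F)
  rw [sum_add_distrib, ← h2] at h3
  simp only [sum_add_distrib, ← mul_sum, sum_ind] at h3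
  have h4 : ∑ F : Quotient M.face, (univ.filter (fun ω : Orb M => toFace M ω = F)).card =
      Fintype.card (Orb M) := by
    rw [← card_univ (α := Orb M)]
    exact (card_eq_sum_card_fiberwise (fun ω _ => mem_univ (toFace M ω))).symm
  rw [h4, sum_const, card_univ, smul_eq_mul] at h3
  have h6 := M.genus_zero
  have h7 := M.euler
  rw [Nat.card_eq_fintype_card (α := Orb M)] at h6
  rw [Nat.card_eq_fintype_card (α := Quotient M.face)] at h7
  have h8 : 0 < Nat.card M.graph.ConnectedComponent := by
    rw [Nat.card_pos_iff]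
    exact ⟨⟨M.graph.connectedComponentMk v⟩, inferInstance⟩
  have h1' : 288 * Nat.card M.graph.ConnectedComponent ≤ ∑ d, sh M d := by exact_mod_cast h1
  omega

end Pool.Agent.LightTri
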