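import Pool.Agent.LightTri.Defs

set_option autoImplicit false
set_option linter.unusedSectionVars false

namespace Pool.Agent.LightTri

open Equiv Equiv.Perm Finset

/-- share (doubled) of a triangular face for a 5-vertex; the arguments are the types of the two
other vertices (0,1,2,3 for degree 5,6,7, at least 8) -/
def share2 (a b : Fin 4) : ℕ :=
  if a = 0 then (if b = 0 then 12 else if b = 1 then 9 else if b = 2 then 5 else 0)
  else if a = 1 then (if b = 0 then 9 else if b = 1 then 8 else 0)
  else if a = 2 then (if b = 0 then 5 else 0)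
  else 0

/-- amount (doubled) sent by a vertex of type `a` to a 5-vertex through a triangle whose third
vertex has type `b` -/
def side2 (a b : Fin 4) : ℕ :=
  if a = 2 then (if b = 0 then 0 else 4) else if a = 3 then (if b = 0 then 3 else 6) else 0

def W2 (a b : Fin 4) : ℕ := share2 a b + side2 a b + side2 b a

theorem W2_le (a b : Fin 4) : W2 a b ≤ 12 := by
  revert a b; decide

theorem W2_cycle (a b c d e : Fin 4) :
    24 ≤ W2 a e + W2 b a + W2 c b + W2 d c + W2 e d := by
  revert a b c d e; decide

/-- what a vertex of type `a` sends in a triangular corner whose other vertices have types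
`b` and `c` -/
def h2 (a b c : Fin 4) : ℕ := (if b = 0 then side2 a c else 0) + (if c = 0 then side2 a b else 0)

theorem h2_small (a b c : Fin 4) (ha : a = 0 ∨ a = 1) : h2 a b c = 0 := by
  revert a b c; decide

theorem h2_three (b c : Fin 4) : h2 3 b c ≤ 6 := by
  revert b c; decide

theorem h2_two (b c : Fin 4) : h2 2 b c ≤ if ((b = 0) ↔ (c = 0)) then 0 else 4 := by
  revert b c; decide

theorem bool_cycle (a b c d e f g : Bool) :
    (if (a ↔ g) then 0 else 4) + (if (b ↔ a) then 0 else 4) + (if (c ↔ b) then 0 else 4) +
    (if (d ↔ c) then 0 else 4) + (if (e ↔ d) then 0 else 4) + (if (f ↔ e) then 0 else 4) +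
    (if (g ↔ f) then 0 else 4) ≤ 24 := by
  revert a b c d e f g; decide

end Pool.Agent.LightTri
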