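import Pool.Agent.LightTri.Local

set_option autoImplicit false
set_option linter.unusedSectionVars false

namespace Pool.Agent.LightTri

open Equiv Equiv.Perm Finset

noncomputable instance fintypeDart (V : Type) [Fintype V] (G : SimpleGraph V) : Fintype G.Dart := by
  classical
  exact Fintype.ofInjective SimpleGraph.Dart.toProd SimpleGraph.Dart.toProd_injective

variable {V : Type} [Fintype V] (M : PlaneGraph V)

theorem face_fst {G : SimpleGraph V} {rot : Perm G.Dart} (h : ∀ d : G.Dart, (rot d).fst = d.fst)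
    (d : G.Dart) : (facePerm rot d).fst = d.snd := by
  show (rot d.symm).fst = d.snd
  rw [h]; rfl

theorem face_ne {G : SimpleGraph V} {rot : Perm G.Dart} (h : ∀ d : G.Dart, (rot d).fst = d.fst)
    (d : G.Dart) : facePerm rot d ≠ d := by
  intro he
  have := face_fst h d
  rw [he] at this
  exact d.fst_ne_snd this

open scoped Classical in
/-- darts leaving a vertex -/
noncomputable def out (M : PlaneGraph V) (v : V) : Finset M.graph.Dart :=
  univ.filter (fun d => d.fst = v)

theorem mem_out {v : V} {d : M.graph.Dart} : d ∈ out M v ↔ d.fst = v := by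
  simp [out]

theorem card_out (v : V) : (out M v).card = M.deg v := by
  classical
  unfold PlaneGraph.deg
  rw [← Fintype.card_coe, ← Nat.card_eq_fintype_card]
  refine Nat.card_congr ⟨fun d => ⟨d.1.snd, ?_⟩, fun w => ⟨⟨(v, w.1), w.2⟩, ?_⟩, ?_, ?_⟩
  · have h := (mem_out M).1 d.2
    have := d.1.adj
    rw [SimpleGraph.mem_neighborSet]
    rw [h] at this
    exact this
  · rw [mem_out]
  · rintro ⟨d, hd⟩
    rw [mem_out] at hd
    apply Subtype.ext
    apply SimpleGraph.Dart.ext
    exact Prod.ext hd.symm rfl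
  · rintro ⟨w, hw⟩
    rfl

theorem isCycleOn_out (v : V) : M.rot.IsCycleOn (out M v : Set M.graph.Dart) := by
  constructor
  · refine ⟨?_, M.rot.injective.injOn, ?_⟩
    · intro d hd
      rw [mem_coe, mem_out] at hd ⊢
      rw [M.rot_fst, hd]
    · intro d hd
      rw [mem_coe, mem_out] at hd
      refine ⟨M.rot.symm d, ?_, M.rot.apply_symm_apply d⟩
      rw [mem_coe, mem_out]
      have := M.rot_fst (M.rot.symm d)
      rw [M.rot.apply_symm_apply] at this
      rw [← this, hd]
  · intro d hd e he
    rw [mem_coe, mem_out] at hd he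
    exact M.rot_cyclic d e (by rw [hd, he])

theorem sum_out {A : Type} [AddCommMonoid A] {v : V} {d : M.graph.Dart} (hd : d.fst = v)
    (F : M.graph.Dart → A) :
    ∑ e ∈ out M v, F e = ∑ i ∈ range (M.deg v), F ((M.rot ^ i) d) := by
  classical
  have hc := isCycleOn_out M v
  have hdm : d ∈ out M v := (mem_out M).2 hd
  rw [← card_out]
  symm
  refine Finset.sum_bij (fun i _ => (M.rot ^ i) d) ?_ ?_ ?_ ?_
  · intro i _
    rw [mem_out]
    clear hc
    induction i with
    | zero => simpa using hd
    | succ i ih => rw [pow_succ', Perm.mul_apply, M.rot_fst]; exact ih (by simp_all; omega)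
  · intro i hi j hj hij
    have := (hc.pow_apply_eq_pow_apply hdm).1 hij
    rw [mem_range] at hi hj
    exact Nat.ModEq.eq_of_lt_of_lt this hi hj
  · intro e he
    obtain ⟨n, hn, hne⟩ := hc.exists_pow_eq hdm he
    exact ⟨n, mem_range.2 hn, hne⟩
  · intro i _; rfl

theorem rot_pow_deg {v : V} {d : M.graph.Dart} (hd : d.fst = v) : (M.rot ^ (M.deg v)) d = d := by
  have := (isCycleOn_out M v).pow_card_apply ((mem_out M).2 hd)
  rwa [card_out] at this

/-- the type of a vertex -/
noncomputable def ty (v : V) : Fin 4 :=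
  if M.deg v ≤ 5 then 0 else if M.deg v = 6 then 1 else if M.deg v = 7 then 2 else 3

/-- triangular darts -/
def Tri (d : M.graph.Dart) : Prop :=
  facePerm M.rot (facePerm M.rot (facePerm M.rot d)) = d

theorem rot_inv_eq {d : M.graph.Dart} (h : Tri M d) :
    M.rot⁻¹ d = (facePerm M.rot (facePerm M.rot d)).symm := by
  unfold Tri at h
  rw [Perm.inv_eq_iff_eq]
  exact h.symm

theorem tri_face {d : M.graph.Dart} (h : Tri M d) : Tri M (facePerm M.rot d) := by
  unfold Tri at h ⊢
  rw [h]

open scoped Classical in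
/-- share in a corner -/
noncomputable def sh (d : M.graph.Dart) : ℕ :=
  if Tri M d ∧ ty M d.fst = 0 then
    share2 (ty M (facePerm M.rot d).fst) (ty M (facePerm M.rot (facePerm M.rot d)).fst) else 0

open scoped Classical in
noncomputable def sd (d : M.graph.Dart) : ℕ :=
  if Tri M d ∧ ty M d.fst = 0 then
    side2 (ty M (facePerm M.rot d).fst) (ty M (facePerm M.rot (facePerm M.rot d)).fst) +
    side2 (ty M (facePerm M.rot (facePerm M.rot d)).fst) (ty M (facePerm M.rot d).fst) else 0

open scoped Classical in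
noncomputable def hh (d : M.graph.Dart) : ℕ :=
  if Tri M d then h2 (ty M d.fst) (ty M (facePerm M.rot d).fst)
    (ty M (facePerm M.rot (facePerm M.rot d)).fst) else 0

open scoped Classical in
noncomputable def nt (d : M.graph.Dart) : ℕ := if Tri M d then 0 else 12

theorem tri_types {d : M.graph.Dart} (h : Tri M d) :
    (facePerm M.rot d).fst = d.snd ∧
    (facePerm M.rot (facePerm M.rot d)).fst = (M.rot⁻¹ d).snd := by
  refine ⟨face_fst M.rot_fst d, ?_⟩
  rw [rot_inv_eq M h]; rfl

/-- corner inequality at a 5-vertex -/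
theorem corner_five {d : M.graph.Dart} (h0 : ty M d.fst = 0) :
    W2 (ty M d.snd) (ty M (M.rot⁻¹ d).snd) ≤ nt M d + sh M d + sd M d := by
  by_cases h : Tri M d
  · obtain ⟨h1, h2⟩ := tri_types M h
    simp only [nt, sh, sd, h, h0, if_true, and_self, h1, h2]
    unfold W2
    omega
  · simp only [nt, sh, sd, h, if_false, false_and]
    exact W2_le _ _

theorem vertex_five {v : V} (hv : M.deg v = 5) :
    24 ≤ ∑ d ∈ out M v, (nt M d + sh M d + sd M d) := by
  have hty : ty M v = 0 := by simp [ty, hv]
  have hpos : 0 < (out M v).card := by rw [card_out, hv]; norm_num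
  obtain ⟨d, hd⟩ := card_pos.1 hpos
  rw [mem_out] at hd
  have h1 : ∑ e ∈ out M v, W2 (ty M e.snd) (ty M (M.rot⁻¹ e).snd) ≤
      ∑ d ∈ out M v, (nt M d + sh M d + sd M d) := by
    apply sum_le_sum
    intro e he
    apply corner_five
    rw [(mem_out M).1 he, hty]
  refine le_trans ?_ h1
  have h5 := rot_pow_deg M hd
  rw [hv] at h5
  rw [sum_out M hd, hv]
  simp only [sum_range_succ, sum_range_zero, zero_add]
  have hinv : ∀ i : ℕ, M.rot⁻¹ ((M.rot ^ (i + 1)) d) = (M.rot ^ i) d := by
    intro i
    rw [pow_succ', Perm.mul_apply]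
    exact M.rot.symm_apply_apply _
  have h0 : M.rot⁻¹ ((M.rot ^ 0) d) = (M.rot ^ 4) d := by
    rw [← hinv 4, h5]; rfl
  rw [h0, hinv 0, hinv 1, hinv 2, hinv 3]
  exact W2_cycle _ _ _ _ _

theorem vertex_seven {v : V} (hv : M.deg v = 7) : ∑ d ∈ out M v, hh M d ≤ 24 := by
  classical
  have hty : ty M v = 2 := by simp [ty, hv]
  have hpos : 0 < (out M v).card := by rw [card_out, hv]; norm_num
  obtain ⟨d, hd⟩ := card_pos.1 hpos
  rw [mem_out] at hd
  set t : M.graph.Dart → Bool := fun e => decide (ty M e.snd = 0) with ht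
  have h1 : ∑ e ∈ out M v, hh M e ≤
      ∑ e ∈ out M v, (if (t e ↔ t (M.rot⁻¹ e)) then 0 else 4) := by
    apply sum_le_sum
    intro e he
    rw [mem_out] at he
    by_cases h : Tri M e
    · obtain ⟨e1, e2⟩ := tri_types M h
      simp only [hh, h, if_true, e1, e2, he, hty]
      refine le_trans (h2_two _ _) ?_
      simp [ht]
    · simp [hh, h]
  refine le_trans h1 ?_
  have h5 := rot_pow_deg M hd
  rw [hv] at h5
  rw [sum_out M hd, hv]
  simp only [sum_range_succ, sum_range_zero, zero_add]
  have hinv : ∀ i : ℕ, M.rot⁻¹ ((M.rot ^ (i + 1)) d) = (M.rot ^ i) d := by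
    intro i
    rw [pow_succ', Perm.mul_apply]
    exact M.rot.symm_apply_apply _
  have h0 : M.rot⁻¹ ((M.rot ^ 0) d) = (M.rot ^ 6) d := by
    rw [← hinv 6, h5]; rfl
  rw [h0, hinv 0, hinv 1, hinv 2, hinv 3, hinv 4, hinv 5]
  exact bool_cycle _ _ _ _ _ _ _

theorem vertex_large {v : V} (hv : 8 ≤ M.deg v) : ∑ d ∈ out M v, hh M d ≤ 6 * M.deg v := by
  have hty : ty M v = 3 := by
    unfold ty
    rw [if_neg (by omega), if_neg (by omega), if_neg (by omega)]
  calc ∑ d ∈ out M v, hh M d ≤ ∑ d ∈ out M v, 6 := by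
        apply sum_le_sum
        intro e he
        rw [mem_out] at he
        unfold hh
        split_ifs
        · rw [he, hty]; exact h2_three _ _
        · exact Nat.zero_le _
    _ = 6 * M.deg v := by rw [sum_const, card_out, smul_eq_mul, mul_comm]

/-- The balance at each vertex. -/
theorem vertex_balance {v : V} (hv : 5 ≤ M.deg v) :
    24 * (6 - (M.deg v : ℤ)) + ∑ d ∈ out M v, (hh M d : ℤ) ≤
      ∑ d ∈ out M v, ((nt M d : ℤ) + sh M d + sd M d) := by
  have hnn : (0 : ℤ) ≤ ∑ d ∈ out M v, ((nt M d : ℤ) + sh M d + sd M d) := by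
    apply sum_nonneg; intro d _; positivity
  rcases lt_trichotomy (M.deg v) 6 with h | h | h
  · have h5 : M.deg v = 5 := by omega
    have h1 := vertex_five M h5
    have h2 : ∑ d ∈ out M v, hh M d = 0 := by
      apply sum_eq_zero
      intro e he
      rw [mem_out] at he
      unfold hh
      split_ifs
      · apply h2_small; left; rw [he]; simp [ty, h5]
      · rfl
    rw [h5]
    have h2' : ∑ d ∈ out M v, (hh M d : ℤ) = 0 := by exact_mod_cast h2
    have h1' : (24 : ℤ) ≤ ∑ d ∈ out M v, ((nt M d : ℤ) + sh M d + sd M d) := by exact_mod_cast h1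
    rw [h2']
    push_cast
    linarith
  · have h2 : ∑ d ∈ out M v, hh M d = 0 := by
      apply sum_eq_zero
      intro e he
      rw [mem_out] at he
      unfold hh
      split_ifs
      · apply h2_small; right; rw [he]; simp [ty, h]
      · rfl
    have h2' : ∑ d ∈ out M v, (hh M d : ℤ) = 0 := by exact_mod_cast h2
    rw [h2', h]
    push_cast
    linarith
  · rcases Nat.lt_or_ge 7 (M.deg v) with h7 | h7
    · have h1 := vertex_large M h7
      have h1' : ∑ d ∈ out M v, (hh M d : ℤ) ≤ 6 * (M.deg v : ℤ) := by exact_mod_cast h1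
      have h7' : (8 : ℤ) ≤ M.deg v := by exact_mod_cast h7
      linarith
    · have h7' : M.deg v = 7 := by omega
      have h1 := vertex_seven M h7'
      have h1' : ∑ d ∈ out M v, (hh M d : ℤ) ≤ 24 := by exact_mod_cast h1
      rw [h7']
      push_cast
      linarith

theorem sum_all {A : Type} [AddCommMonoid A] (F : M.graph.Dart → A) :
    ∑ v : V, ∑ d ∈ out M v, F d = ∑ d, F d := by
  classical
  exact Finset.sum_fiberwise univ (fun d : M.graph.Dart => d.fst) F

/-- redistribution inside the faces -/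
theorem sd_eq_hh : ∑ d, sd M d = ∑ d, hh M d := by
  classical
  set φ := facePerm M.rot with hφ
  -- auxiliary functions
  let a : M.graph.Dart → ℕ := fun d => if Tri M d ∧ ty M d.fst = 0 then
    side2 (ty M (φ d).fst) (ty M (φ (φ d)).fst) else 0
  let b : M.graph.Dart → ℕ := fun d => if Tri M d ∧ ty M d.fst = 0 then
    side2 (ty M (φ (φ d)).fst) (ty M (φ d).fst) else 0
  have h1 : ∑ d, sd M d = ∑ d, a d + ∑ d, b d := by
    rw [← sum_add_distrib]
    apply sum_congr rfl
    intro d _
    simp only [sd, a, b]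
    split_ifs <;> simp [hφ]
  have h2 : ∑ d, a d = ∑ d, a (φ (φ d)) := (Equiv.sum_comp (φ.trans φ) a).symm
  have h3 : ∑ d, b d = ∑ d, b (φ d) := (Equiv.sum_comp φ b).symm
  rw [h1, h2, h3, ← sum_add_distrib]
  apply sum_congr rfl
  intro d _
  by_cases h : Tri M d
  · have t1 := tri_face M h
    have t2 := tri_face M t1
    have e3 : φ (φ (φ d)) = d := h
    simp only [a, b, hh, h, if_true, e3]
    rw [← hφ]
    have t1' : Tri M (φ d) := t1
    have t2' : Tri M (φ (φ d)) := t2
    simp only [t1', t2', true_and]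
    unfold LightTri.h2
    exact add_comm _ _
  · have t1 : ¬ Tri M (φ d) := by
      intro h'
      apply h
      have : φ (φ (φ (φ d))) = φ d := h'
      exact φ.injective this
    have t2 : ¬ Tri M (φ (φ d)) := by
      intro h'
      apply t1
      have : φ (φ (φ (φ (φ d)))) = φ (φ d) := h'
      exact φ.injective this
    simp [a, b, hh, h, t1, t2]

end Pool.Agent.LightTri
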